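import Mathlib
import Pool.Agent.Q187.Exp.Gauss

set_option autoImplicit false

open Filter Topology Set

namespace Pool.Agent.Results.MP_034ad4_an.Level

/-- The Gauss map, `G 0 = 0` and `G x = 1 / x - ⌊1 / x⌋` for `x` in `(0, 1)`
(in Lean `1 / 0 = 0`, so the formula gives `G 0 = 0`). -/
noncomputable def G (x : ℝ) : ℝ := 1 / x - (⌊1 / x⌋ : ℝ)

/-- The asymptotic set of `x` under the Gauss map, inside `[0, 1)`. -/
def AS (x : ℝ) : Set ℝ :=
  {y ∈ Ico (0 : ℝ) 1 | Tendsto (fun n : ℕ => |G^[n] x - G^[n] y|) atTop (𝓝 0)}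

/-- The set of points of `[0, 1)` whose asymptotic set has Hausdorff dimension `α`. -/
noncomputable def Theta (α : ENNReal) : Set ℝ :=
  {x ∈ Ico (0 : ℝ) 1 | dimH (AS x) = α}

/-- For the Gauss map the set `Θ(G; 1/2)` has Hausdorff dimension one. -/
theorem result : dimH (Theta (1 / 2)) = 1 :=
  Pool.Agent.Q187.Exp.dimH_level Pool.Agent.Q187.Exp.Gauss.sys
    (X := Ico (0 : ℝ) 1) Ioo_subset_Ico_self Ico_subset_Icc_self

end Pool.Agent.Results.MP_034ad4_an.Level
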